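import Pool.Agent.W205.K5.All
import Pool.Agent.W890.SF.R2

/-!
# The asymptotic Erdős matching conjecture: ratio form (helper359)

Glue over the starting library: `Pool.Agent.W593.IR.ub` (all `k`, `x` outside
`(8/(8k+5), 5/(5k+2))`), `Pool.Agent.W205.K5.ub5` (`k ≤ 5`, all `x`).
-/

set_option autoImplicit false

namespace Pool.Agent.N359.EMC

open Finset Filter Topology Pool.Agent.W890.SF Pool.Agent.W593.IR

/-- the range of `x` where the asymptotic form is proved -/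
def Rg (k : ℕ) (x : ℝ) : Prop := k ≤ 5 ∨ (8 * (k : ℝ) + 5) * x ≤ 8 ∨ 5 ≤ (5 * (k : ℝ) + 2) * x

theorem ubs (k : ℕ) (hk : 2 ≤ k) (x : ℝ) (hx : 0 < x) (hx1 : x ≤ 1 / (k : ℝ)) (h : Rg k x) :
    x = 1 / (k : ℝ) ∨ ((k : ℝ) * x < 1 ∧ UBS k x) := by
  rcases h with h | h
  · exact Pool.Agent.W205.K5.ub5 k hk h x hx hx1
  · exact Pool.Agent.W593.IR.ub k hk x hx hx1 h

/-- limit of the density -/
theorem lim (k : ℕ) (hk : 2 ≤ k) (x : ℝ) (hx : 0 < x) (hx1 : x ≤ 1 / (k : ℝ)) (h : Rg k x) :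
    Tendsto (fun n : ℕ => (mm n k ⌊x * (n : ℝ)⌋₊ : ℝ) / ((n.choose k : ℕ) : ℝ)) atTop
      (𝓝 (max (1 - (1 - x) ^ k) ((k * x) ^ k))) :=
  t_LIMI t_LOW t_LIM k hk x hx (ubs k hk x hx hx1 h)

/-- ratio to the conjectured value -/
theorem ratio (k : ℕ) (hk : 2 ≤ k) (x : ℝ) (hx : 0 < x) (hx1 : (k : ℝ) * x < 1) (h : Rg k x) :
    Tendsto (fun n : ℕ => (mm n k ⌊x * (n : ℝ)⌋₊ : ℝ) /
      ((max (n.choose k - (n - ⌊x * (n : ℝ)⌋₊).choose k)
        ((k * (⌊x * (n : ℝ)⌋₊ + 1) - 1).choose k) : ℕ) : ℝ)) atTop (𝓝 1) := by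
  have hk0 : (0 : ℝ) < k := by exact_mod_cast (by omega : 0 < k)
  have hk2 : (2 : ℝ) ≤ k := by exact_mod_cast hk
  have hx1' : x ≤ 1 / (k : ℝ) := by
    rw [le_div_iff₀ hk0]
    linarith
  have hxle : x ≤ 1 := by nlinarith
  have h1 := lim k hk x hx hx1' h
  obtain ⟨l1, l2⟩ := t_LIM k (by omega) x hx hxle
  have l3 := l1.max (l2 hx1)
  have hpos : (0 : ℝ) < max (1 - (1 - x) ^ k) ((k * x) ^ k) :=
    lt_max_of_lt_right (by positivity)
  have h2 := h1.div l3 hpos.ne'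
  rw [div_self hpos.ne'] at h2
  refine h2.congr' ?_
  filter_upwards [eventually_ge_atTop k] with n hn
  have hc : (0 : ℝ) < ((n.choose k : ℕ) : ℝ) := by exact_mod_cast Nat.choose_pos hn
  simp only [Pi.div_apply]
  rw [max_div_div_right hc.le, div_div_div_cancel_right₀ hc.ne', Nat.cast_max]

end Pool.Agent.N359.EMC
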